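import Mathlib
import Pool.Agent.X267.OrdB
import Pool.Agent.Results.MP_544bd1_al.ThreeGeneratorsFive

/-!
# If `5` is not in `𝓛`, there are infinite groups generated by two elements of small orders

The kernel `N` of the map from the free product of cyclic groups of orders `r` and `s` onto their
direct product is free of rank `(r - 1) (s - 1)`. The quotient of the free product by `N ^ a` has
exponent dividing `n = a lcm(r, s)`, and it contains the free Burnside group of rank
`(r - 1) (s - 1)` and exponent `a`. (Below this is done inside a wreath product.) So if the latter is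
infinite, so is the largest group of exponent `n` generated by two elements of orders dividing `r`
and `s`. Other free products of two cyclic groups and other finite quotients of them of exponent
`n / 5` are used when `r` or `s` is not prime to `5` or `{r, s} = {2, 3}`. As `B_{3,5}` is infinite if
`5 ∉ 𝓛` (the result `ThreeGeneratorsFive`), a discussion of the divisors of `r` and `s` gives (2).
-/

set_option autoImplicit false

namespace Pool.Agent.Results.MP_544bd1_al.OrdersOfTwoGenerators

open Pool.Agent.X267

universe u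

/-- `n ∈ 𝓛`: every group satisfying `x ^ n = 1` is locally finite. -/
def InL (n : ℕ) : Prop := ∀ (G : Type u) [Group G], (∀ x : G, x ^ n = 1) →
  ∀ S : Set G, S.Finite → Finite (Subgroup.closure S)

/-- The free Burnside group `B_{m,n}`: the free group of rank `m` modulo the normal closure of all
`n`-th powers. -/
abbrev B (m n : ℕ) : Type :=
  FreeGroup (Fin m) ⧸ Subgroup.normalClosure (Set.range fun w : FreeGroup (Fin m) => w ^ n)

/-- The largest group of exponent dividing `n` generated by two elements `x`, `y` with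
`x ^ r = y ^ s = 1`: the quotient of the free Burnside group `B_{2,n}` by the normal closure of
`x ^ r` and `y ^ s`. -/
abbrev P (n r s : ℕ) : Type :=
  FreeGroup (Fin 2) ⧸ Subgroup.normalClosure ((Set.range fun w : FreeGroup (Fin 2) => w ^ n) ∪
    {FreeGroup.of 0 ^ r, FreeGroup.of 1 ^ s})

/-- the universal property of `P n r s` -/
theorem finTwo {n r s : ℕ} (h : Finite (P n r s)) : Wr.FinTwo n r s := by
  intro W _ hW x y hx hy
  let f0 : FreeGroup (Fin 2) →* W := FreeGroup.lift ![x, y]
  have hker : Subgroup.normalClosure ((Set.range fun w : FreeGroup (Fin 2) => w ^ n) ∪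
      {FreeGroup.of 0 ^ r, FreeGroup.of 1 ^ s}) ≤ f0.ker := by
    apply Subgroup.normalClosure_le_normal
    rintro _ (⟨w, rfl⟩ | rfl | rfl)
    · rw [SetLike.mem_coe, MonoidHom.mem_ker, map_pow, hW]
    · rw [SetLike.mem_coe, MonoidHom.mem_ker, map_pow, FreeGroup.lift_apply_of]
      exact hx
    · rw [SetLike.mem_coe, MonoidHom.mem_ker, map_pow, FreeGroup.lift_apply_of]
      exact hy
  have e1 : (QuotientGroup.lift _ f0 (fun w hw => hker hw) : P n r s →* W).range = f0.range := by
    ext g
    constructor
    · rintro ⟨w, rfl⟩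
      obtain ⟨w, rfl⟩ := QuotientGroup.mk_surjective w
      exact ⟨w, rfl⟩
    · rintro ⟨w, rfl⟩
      exact ⟨(w : P n r s), rfl⟩
  have e2 : f0.range = Subgroup.closure {x, y} := by
    rw [FreeGroup.range_lift_eq_closure]
    congr 1
    ext g
    simp only [Set.mem_range, Fin.exists_fin_succ, Set.mem_insert_iff, Set.mem_singleton_iff]
    simp [eq_comm]
  rw [← e2, ← e1]
  exact Finite.of_surjective _
    (QuotientGroup.lift _ f0 (fun w hw => hker hw) : P n r s →* W).rangeRestrict_surjective

/-- (1) Let `a, r, s ≥ 1`. If `P (a * lcm r s) r s` is finite, so is `B_{m,a}` for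
`m = (r - 1) (s - 1)`; if `P (6 a) 2 3` is finite, so is `B_{4,a}`; if `P (a s) a s` is finite, so is
`B_{s,a}`; if `P (2 a) 2 (2 a)` or `P (2 a) a (2 a)` is finite, so is `B_{3,a}`.
(2) Let `n` be a multiple of `5`, and let `r, s > 1` be divisors of `n`, not both equal to `2`. If
`P n r s` is finite, then `B_{2,5}` is finite, and `5 ∈ 𝓛` except possibly if `25` does not divide
`n` and `r, s ∈ {2, 5}`. (So if `5 ∉ 𝓛`, then `P n r s` is infinite, with these exceptions; for
example there are infinite groups of exponent `15` generated by two elements of order `3`, of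
exponent `20` generated by elements of orders `2` and `4`, and of exponent `30` generated by
elements of orders `2` and `3`.) -/
theorem result :
    (∀ a r s : ℕ, 1 ≤ r → 1 ≤ s →
      (Finite (P (a * Nat.lcm r s) r s) → Finite (B ((r - 1) * (s - 1)) a)) ∧
      (Finite (P (6 * a) 2 3) → Finite (B 4 a)) ∧
      (Finite (P (a * s) a s) → Finite (B s a)) ∧
      (Finite (P (2 * a) 2 (2 * a)) ∨ Finite (P (2 * a) a (2 * a)) → Finite (B 3 a))) ∧
    ∀ n r s : ℕ, 5 ∣ n → r ∣ n → s ∣ n → 1 < r → 1 < s → ¬ (r = 2 ∧ s = 2) → Finite (P n r s) →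
      Finite (B 2 5) ∧
      (¬ (¬ 25 ∣ n ∧ (r = 2 ∨ r = 5) ∧ (s = 2 ∨ s = 5)) → InL.{u} 5) := by
  refine ⟨fun a r s hr hs => ⟨fun h => Wr.rank_grid hr hs (finTwo h), fun h => ?_,
    fun h => Wr.rank_base hs (finTwo h), ?_⟩, ?_⟩
  · have h1 : Wr.FinTwo (2 * (a * Nat.lcm 3 3)) 2 3 := by
      have e1 : 2 * (a * Nat.lcm 3 3) = 6 * a := by
        have : Nat.lcm 3 3 = 3 := by decide
        rw [this]; ring
      rw [e1]
      exact finTwo h
    exact Wr.rank_grid (r := 3) (s := 3) (by norm_num) (by norm_num) (Wr.half h1)
  · rintro (h | h)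
    · exact Wr.rank_inv (finTwo h)
    · exact Wr.rank_half (finTwo h)
  · intro n r s hn hr hs hr1 hs1 h22 h
    obtain ⟨h1, h2⟩ := Wr.three_five hn hr hs hr1 hs1 h22 (finTwo h)
    exact ⟨h1, fun h3 => (ThreeGeneratorsFive.result.{u}.2.2.1 5 (Or.inl rfl)).2 (h2 h3)⟩

end Pool.Agent.Results.MP_544bd1_al.OrdersOfTwoGenerators
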