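import Mathlib
import Pool.Agent.X267.SandE

/-!
# A single law decides local finiteness for exponent five

Outline.  Let `G` be a group of exponent `5`.

1. (Sandwich sets.) Let `X` be a union of conjugacy classes of `G` such that `[x, y]` commutes with
`x` and `y` for all `x, y ∈ X`. Then the elements of `X` commute with their conjugates under `⟨X⟩`, so
that `⟨X⟩` is locally finite. For the proof let `a, b ∈ X`, `w = [a, b]`, and let `c` be an element
such that `[c', u]` commutes with `c'` and `u` for all `u ∈ X` and all conjugates `c'` of `c`. The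
elements `a w ^ i` are in `X`, so the function `(i, k) ↦ c ^ (a ^ i w ^ k)` on the plane over the field
with five elements is affine on all lines but the vertical ones, and comparing the midpoints of the
diagonals of a parallelogram shows that `[c, w]` commutes with `c, w, a, b`. So `X` can be enlarged by
the commutators of its elements, and may be supposed to be closed under commutators. Let
`θ = [x, y_1, …, y_k, x]`, `x, y_i ∈ X`, and suppose that all shorter commutators of this kind are
trivial. Then `θ` does not depend on the order of the `y_i` and commutes with `x, y_1, …, y_k`, and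
`[x, x ^ (g ^ d)] = θ ^ (± d ^ 3)` for `k = 3`, `g = y_1 y_2 y_3`; now
`x x ^ g x ^ (g ^ 2) x ^ (g ^ 3) x ^ (g ^ 4) = 1`, and the same with the inverses of the factors, gives
`θ ^ 146 = 1`, so `θ = 1`. For `k > 3` the same argument is applied to `x t`,
`t = [x, y_1, …, y_(k-3)]`, instead of `x`, and gives `θ ^ 2 = 1`.

2. If `[g, z, z, z] = 1` for all `g`, then the conjugates of `z` are a sandwich set, so `z` is in the
largest locally finite normal subgroup `R` of `G`. If `[g, z, z, z] = 1` for all `g, x, y` and
`z = [y, x, x, x]`, then these `z` are in `R`, so the same can be applied to the elements `x` of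
`G / R`, and `G = R`.

3. Conversely, `[g, z, z, z] = 1` for `z = [y, x, x, x]` in all finite groups of exponent `5`; this is
a lemma of the earlier result `ThreeGeneratorsFive`.
-/

set_option autoImplicit false

namespace Pool.Agent.Results.MP_544bd1_al.SingleLaw

open scoped commutatorElement

universe u

/-- `n ∈ 𝓛`: every group satisfying `x ^ n = 1` is locally finite. -/
def InL (n : ℕ) : Prop := ∀ (G : Type u) [Group G], (∀ x : G, x ^ n = 1) →
  ∀ S : Set G, S.Finite → Finite (Subgroup.closure S)

/-- The free Burnside group `B_{m,n}`: the free group of rank `m` modulo the normal closure of all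
`n`-th powers. -/
abbrev B (m n : ℕ) : Type :=
  FreeGroup (Fin m) ⧸ Subgroup.normalClosure (Set.range fun w : FreeGroup (Fin m) => w ^ n)

/-- The commutator `[y, x, x, x]`. -/
def engel {G : Type u} [Group G] (x y : G) : G := ⁅⁅⁅y, x⁆, x⁆, x⁆

/-- The word `[g, z, z, z]`, `z = [y, x, x, x]`. -/
def law {G : Type u} [Group G] (x y g : G) : G := engel (engel x y) g

theorem mem_normalClosure_iff (w : FreeGroup (Fin 3)) :
    w ∈ Subgroup.normalClosure (Set.range fun v : FreeGroup (Fin 3) => v ^ 5) ↔
      w ∈ Subgroup.closure (Set.range fun v : FreeGroup (Fin 3) => v ^ 5) := by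
  have hN : (Subgroup.closure (Set.range fun v : FreeGroup (Fin 3) => v ^ 5)).Normal := by
    refine ⟨fun n hn g => ?_⟩
    induction hn using Subgroup.closure_induction with
    | mem y hy =>
      obtain ⟨v, rfl⟩ := hy
      refine Subgroup.subset_closure ⟨g * v * g⁻¹, ?_⟩
      exact conj_pow
    | one => simp
    | mul a b _ _ ha hb =>
      have e : g * (a * b) * g⁻¹ = (g * a * g⁻¹) * (g * b * g⁻¹) := by group
      rw [e]
      exact mul_mem ha hb
    | inv a _ ha =>
      have e : g * a⁻¹ * g⁻¹ = (g * a * g⁻¹)⁻¹ := by group
      rw [e]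
      exact inv_mem ha
  constructor
  · intro h
    exact Subgroup.normalClosure_le_normal (N := Subgroup.closure
      (Set.range fun v : FreeGroup (Fin 3) => v ^ 5)) Subgroup.subset_closure h
  · intro h
    exact Subgroup.closure_le_normalClosure h

/-- (1) A group `G` of exponent dividing `5` is locally finite if and only if it satisfies the law
`[g, z, z, z] = 1`, `z = [y, x, x, x]`: the locally finite groups of exponent dividing `5` form the
variety with the two laws `x ^ 5 = 1` and `[g, z, z, z] = 1`. (2) `5 ∈ 𝓛` if and only if
`[g, z, z, z] = 1` for the generators `x, y, g` of the free Burnside group `B_{3,5}`; in other words,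
if and only if this word is a product of fifth powers in the free group of rank `3`. -/
theorem result :
    (∀ (G : Type u) [Group G], (∀ x : G, x ^ 5 = 1) →
      ((∀ S : Set G, S.Finite → Finite (Subgroup.closure S)) ↔ ∀ x y g : G, law x y g = 1)) ∧
    (InL.{u} 5 ↔ law (QuotientGroup.mk (FreeGroup.of 0) : B 3 5)
      (QuotientGroup.mk (FreeGroup.of 1)) (QuotientGroup.mk (FreeGroup.of 2)) = 1) ∧
    (InL.{u} 5 ↔ law (FreeGroup.of 0 : FreeGroup (Fin 3)) (FreeGroup.of 1) (FreeGroup.of 2) ∈
      Subgroup.closure (Set.range fun v : FreeGroup (Fin 3) => v ^ 5)) := by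
  have h2 : InL.{u} 5 ↔ law (QuotientGroup.mk (FreeGroup.of 0) : B 3 5)
      (QuotientGroup.mk (FreeGroup.of 1)) (QuotientGroup.mk (FreeGroup.of 2)) = 1 :=
    Pool.Agent.X267.Sand.inL_law.{u}
  refine ⟨fun G _ h5 => Pool.Agent.X267.Sand.law_iff G h5, h2, ?_⟩
  rw [h2, ← mem_normalClosure_iff, ← QuotientGroup.eq_one_iff]
  rfl

end Pool.Agent.Results.MP_544bd1_al.SingleLaw
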