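import Mathlib
import Pool.Agent.X267.OrdC
import Pool.Agent.Results.MP_544bd1_al.ThreeGeneratorsFive
import Pool.Agent.Results.MP_544bd1_al.ExponentTwiceOdd
import Pool.Agent.Results.MP_544bd1_al.PrimePowerGenerators

/-!
# Generators of prime power order decide local finiteness for the exponents `10` and `5 q ^ b`

The free product of three groups of order `2`, generated by `x, y, z`, has a homomorphism onto a
group of order `4` which maps `x, y, z` to its three involutions. The kernel `N` is free of rank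
`3`, and the quotient by `N ^ 5` has exponent dividing `10`; so if the largest group of exponent
`10` generated by three involutions is finite, so is `B_{3,5}`, and `5 ∈ 𝓛` by the result
`ThreeGeneratorsFive`. The free product of groups of order `5` and `s ≥ 3` has a homomorphism onto
the group of order `s` whose kernel is a free product of `s` groups of order `5`, and this is used
for exponent `5 s`. So the hypothesis `5 ∈ 𝓛` of the criteria of `ExponentTwiceOdd` and
`PrimePowerGenerators` is superfluous.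
-/

set_option autoImplicit false

namespace Pool.Agent.Results.MP_544bd1_al.SmallOrderGenerators

open Pool.Agent.X267

universe u

/-- `n ∈ 𝓛`: every group satisfying `x ^ n = 1` is locally finite. -/
def InL (n : ℕ) : Prop := ∀ (G : Type u) [Group G], (∀ x : G, x ^ n = 1) →
  ∀ S : Set G, S.Finite → Finite (Subgroup.closure S)

/-- The largest group of exponent dividing `n` which is generated by `k` elements with trivial
`r`-th power. -/
abbrev E (k n r : ℕ) : Type :=
  FreeGroup (Fin k) ⧸ Subgroup.normalClosure ((Set.range fun w : FreeGroup (Fin k) => w ^ n) ∪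
    Set.range fun i : Fin k => FreeGroup.of i ^ r)

/-- The largest group of exponent dividing `n` generated by elements `x₀, x₁, x₂` with
`x₀ ^ r = x₁ ^ s = x₂ ^ t = 1`. -/
abbrev P (n r s t : ℕ) : Type :=
  FreeGroup (Fin 3) ⧸ Subgroup.normalClosure
    ((Set.range fun w : FreeGroup (Fin 3) => w ^ n) ∪
      {FreeGroup.of 0 ^ r, FreeGroup.of 1 ^ s, FreeGroup.of 2 ^ t})

theorem range_three {G : Type u} (x y z : G) : Set.range ![x, y, z] = {x, y, z} := by
  ext g
  simp only [Set.mem_range, Fin.exists_fin_succ, Set.mem_insert_iff, Set.mem_singleton_iff]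
  simp [eq_comm]

/-- the universal property of `P n r s t` -/
theorem finThree {n r s t : ℕ} (h : Finite (P n r s t)) : Wr.FinThree n r s t := by
  intro W _ hW x y z hx hy hz
  let f0 : FreeGroup (Fin 3) →* W := FreeGroup.lift ![x, y, z]
  have hker : Subgroup.normalClosure ((Set.range fun w : FreeGroup (Fin 3) => w ^ n) ∪
      {FreeGroup.of 0 ^ r, FreeGroup.of 1 ^ s, FreeGroup.of 2 ^ t}) ≤ f0.ker := by
    apply Subgroup.normalClosure_le_normal
    rintro _ (⟨w, rfl⟩ | rfl | rfl | rfl)
    · rw [SetLike.mem_coe, MonoidHom.mem_ker, map_pow, hW]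
    · rw [SetLike.mem_coe, MonoidHom.mem_ker, map_pow, FreeGroup.lift_apply_of]
      exact hx
    · rw [SetLike.mem_coe, MonoidHom.mem_ker, map_pow, FreeGroup.lift_apply_of]
      exact hy
    · rw [SetLike.mem_coe, MonoidHom.mem_ker, map_pow, FreeGroup.lift_apply_of]
      exact hz
  have e1 : (QuotientGroup.lift _ f0 (fun w hw => hker hw) : P n r s t →* W).range = f0.range := by
    ext g
    constructor
    · rintro ⟨w, rfl⟩
      obtain ⟨w, rfl⟩ := QuotientGroup.mk_surjective w
      exact ⟨w, rfl⟩
    · rintro ⟨w, rfl⟩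
      exact ⟨(w : P n r s t), rfl⟩
  have e2 : f0.range = Subgroup.closure {x, y, z} := by
    rw [FreeGroup.range_lift_eq_closure, range_three]
  rw [← e2, ← e1]
  exact Finite.of_surjective _
    (QuotientGroup.lift _ f0 (fun w hw => hker hw) : P n r s t →* W).rangeRestrict_surjective

theorem five_of_E (h : Finite (E 3 10 2)) : InL.{u} 5 := by
  have h1 : Wr.FinThree (2 * 5) 2 2 2 := by
    intro W _ hW x y z hx hy hz
    obtain ⟨f, hf⟩ := ExponentTwiceOdd.p_onto (k := 3) (n := 10) (r := 2) hW ![x, y, z] (by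
      intro i
      fin_cases i
      · exact hx
      · exact hy
      · exact hz)
    rw [range_three] at hf
    have h : Finite (ExponentTwiceOdd.P 3 10 2) := h
    rw [← hf]
    exact Finite.of_surjective _ f.rangeRestrict_surjective
  exact (ThreeGeneratorsFive.result.{u}.2.2.1 5 (Or.inl rfl)).2 (Wr.rank_three_inv h1)

theorem five_of_P {s : ℕ} (hs : 2 ≤ s) (h : Finite (P (5 * s) 5 s 5)) : InL.{u} 5 := by
  refine (ThreeGeneratorsFive.result.{u}.2.2.1 5 (Or.inl rfl)).2 ?_
  rcases Nat.lt_or_ge s 3 with h3 | h3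
  · have hs2 : s = 2 := by omega
    subst hs2
    exact Wr.rank_three_half (a := 5) (finThree h)
  · exact Wr.bu_le h3 (Wr.rank_base (by omega) (finThree h).two)

theorem inL_four : InL.{u} 4 := (Pool.Agent.H32BU.inL_iff Pool.Agent.H32BU.x_LFD 4).2
  Pool.Agent.H32BU.x_L34.2

theorem inL_three : InL.{u} 3 := (Pool.Agent.H32BU.inL_iff Pool.Agent.H32BU.x_LFD 3).2
  Pool.Agent.H32BU.x_L34.1

/-- (1) `10 ∈ 𝓛` if and only if the largest group of exponent dividing `10` generated by two
elements of order dividing `5` and the largest one generated by three elements of order dividing `2`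
are finite. (2) Let `q ≠ 5` be a prime, `b ≥ 1` and `n = 5 q ^ b`. Then `n ∈ 𝓛` if and only if
`q ^ b ∈ 𝓛` and the groups `P n 5 (q ^ b) 5` and `P n 5 (q ^ b) (q ^ b)` are finite; for `n = 15` and
`n = 20` no hypothesis on prime powers is left. -/
theorem result :
    (InL.{u} 10 ↔ Finite (E 2 10 5) ∧ Finite (E 3 10 2)) ∧
    (∀ q b : ℕ, q.Prime → q ≠ 5 → 1 ≤ b →
      (InL.{u} (5 * q ^ b) ↔ InL.{u} (q ^ b) ∧ Finite (P (5 * q ^ b) 5 (q ^ b) 5) ∧
        Finite (P (5 * q ^ b) 5 (q ^ b) (q ^ b)))) ∧
    (InL.{u} 15 ↔ Finite (P 15 5 3 5) ∧ Finite (P 15 5 3 3)) ∧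
    (InL.{u} 20 ↔ Finite (P 20 5 4 5) ∧ Finite (P 20 5 4 4)) := by
  have h2 : ∀ q b : ℕ, q.Prime → q ≠ 5 → 1 ≤ b →
      (InL.{u} (5 * q ^ b) ↔ InL.{u} (q ^ b) ∧ Finite (P (5 * q ^ b) 5 (q ^ b) 5) ∧
        Finite (P (5 * q ^ b) 5 (q ^ b) (q ^ b))) := by
    intro q b hq hq5 hb
    have h := PrimePowerGenerators.result.{u}.1 5 q 1 b Nat.prime_five hq (Ne.symm hq5)
    rw [pow_one] at h
    have hs : 2 ≤ q ^ b := le_trans hq.two_le (Nat.le_self_pow (by omega) q)
    constructor
    · intro hL
      exact (h.1 hL).2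
    · intro hL
      exact h.2 ⟨five_of_P hs hL.2.1, hL⟩
  refine ⟨?_, h2, ?_, ?_⟩
  · have h := ExponentTwiceOdd.result.{u}.2.2.2.1 5 1 Nat.prime_five (by norm_num)
    constructor
    · intro hL
      exact (h.1 hL).2
    · intro hL
      exact h.2 ⟨five_of_E hL.2, hL⟩
  · have h := h2 3 1 Nat.prime_three (by norm_num) le_rfl
    constructor
    · intro hL
      exact (h.1 hL).2
    · intro hL
      exact h.2 ⟨inL_three, hL⟩
  · have h := h2 2 2 Nat.prime_two (by norm_num) (by norm_num)
    constructor
    · intro hL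
      exact (h.1 hL).2
    · intro hL
      exact h.2 ⟨inL_four, hL⟩

end Pool.Agent.Results.MP_544bd1_al.SmallOrderGenerators
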