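import Mathlib
import Pool.Agent.X267.Bur
import Pool.Agent.Results.MP_544bd1_al.TwoGenerators
import Pool.Agent.Results.MP_544bd1_al.ThreeGeneratorsFive

/-!
# Two generators decide local finiteness for the exponents 10, 15 and 20

Let `N` be the kernel of the map from the free group `F` of rank `m` onto `B_{m,b}`, and suppose that
`B_{m,b}` is finite of order `q`. By Schreier's formula `N` is free of rank `r = (m - 1) q + 1`. The
group `F / N ^ a` has exponent dividing `a b`, so it is an image of `B_{m,ab}`, and it contains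
`N / N ^ a = B_{r,a}`. (Below this is done inside the wreath product of `B_{r,a}` and `B_{m,b}`, with
the edges of the Cayley graph of `B_{m,b}` outside a spanning tree labelled by the generators of
`B_{r,a}`.) So if `B_{m,ab}` is finite, so is `B_{r,a}`, and there are many more generators than
before. With `m = 2`, `a = 5` and `b = k ≥ 2` this gives the finiteness of `B_{3,5}`, which implies
`5 ∈ 𝓛` by the result `ThreeGeneratorsFive`. So the hypothesis `5 ∈ 𝓛` of the two-generator criterion
`TwoGenerators` holds if `B_{2,n}` is finite, for all multiples `n ≠ 5` of `5`.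
-/

set_option autoImplicit false

namespace Pool.Agent.Results.MP_544bd1_al.TwoGeneratorsFive

open Pool.Agent.X267

universe u

/-- `n ∈ 𝓛`: every group satisfying `x ^ n = 1` is locally finite. -/
def InL (n : ℕ) : Prop := ∀ (G : Type u) [Group G], (∀ x : G, x ^ n = 1) →
  ∀ S : Set G, S.Finite → Finite (Subgroup.closure S)

/-- The free Burnside group `B_{m,n}`: the free group of rank `m` modulo the normal closure of all
`n`-th powers. -/
abbrev B (m n : ℕ) : Type :=
  FreeGroup (Fin m) ⧸ Subgroup.normalClosure (Set.range fun w : FreeGroup (Fin m) => w ^ n)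

/-- The exponents treated in (4): `n` is not divisible by `2 ^ m * (2 ^ m - 1) ^ 2` for any `m ≥ 2`,
and there are at most two odd primes whose square divides `n`. -/
def Admissible (n : ℕ) : Prop :=
  (∀ m : ℕ, 2 ≤ m → ¬ 2 ^ m * (2 ^ m - 1) ^ 2 ∣ n) ∧
    ∃ p q : ℕ, ∀ r : ℕ, r.Prime → r ≠ 2 → r ^ 2 ∣ n → r = p ∨ r = q

/-- Every prime power greater than `5` dividing `n` is in `𝓛`. -/
def PrimePowersInL (n : ℕ) : Prop :=
  ∀ p k : ℕ, p.Prime → p ^ k ∣ n → 5 < p ^ k → InL.{u} (p ^ k)

theorem five_of_two {k : ℕ} (hk : 2 ≤ k) (h : Finite (B 2 (5 * k))) : InL.{u} 5 := by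
  obtain ⟨h1, h2⟩ := Wr.bu_kernel (m := 2) (a := 5) (b := k) (by norm_num) h
  have h3 := Wr.le_card (m := 2) (by norm_num) (by omega) h1
  have h4 : Finite (B 3 5) := Wr.bu_le (k := 3) (by omega) h2
  exact (ThreeGeneratorsFive.result.{u}.2.2.1 5 (Or.inl rfl)).2 h4

theorem main {n : ℕ} (hn : 1 ≤ n) (h5 : n ≠ 5) (hA : Admissible n)
    (hs : n.primeFactors.card ≤ 2 ∨ Group.IsSolvable (B 2 n)) :
    InL.{u} n ↔ PrimePowersInL.{u} n ∧ Finite (B 2 n) := by
  have h := (TwoGenerators.result.{u}.2 n hn hA).2 hs
  constructor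
  · intro hL
    have h1 := h.1 hL
    exact ⟨fun p k hp hd hk => h1.1 p k hp hd (by omega), h1.2⟩
  · rintro ⟨h1, h2⟩
    refine h.2 ⟨fun p k hp hd hk => ?_, h2⟩
    rcases Nat.lt_or_ge 5 (p ^ k) with h6 | h6
    · exact h1 p k hp hd h6
    · have h7 : p ^ k = 5 := by omega
      rw [h7] at hd ⊢
      obtain ⟨c, rfl⟩ := hd
      have hc : 2 ≤ c := by
        rcases c with _ | _ | c
        · omega
        · exact absurd rfl h5
        · omega
      exact five_of_two hc h2

/-- (1) Let `m ≥ 1`. If `B_{m,ab}` is finite, then `B_{m,b}` is finite and `B_{r,a}` is finite for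
`r = (m - 1) |B_{m,b}| + 1`. (2) If `B_{2,5k}` is finite for some `k ≥ 2`, then `5 ∈ 𝓛`: if
`5 ∉ 𝓛`, then `B_{2,n}` is infinite for all multiples `n ≠ 5` of `5`. (3) If `n` is one of `10`,
`15`, `20`, then `n ∈ 𝓛` if and only if `B_{2,n}` is finite. (4) Let `n ≠ 5` be admissible, and
suppose that `n` has at most two prime divisors or that `B_{2,n}` is soluble. Then `n ∈ 𝓛` if and
only if all prime powers greater than `5` dividing `n` are in `𝓛` and `B_{2,n}` is finite. -/
theorem result :
    (∀ m a b : ℕ, 1 ≤ m → Finite (B m (a * b)) →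
      Finite (B m b) ∧ Finite (B ((m - 1) * Nat.card (B m b) + 1) a)) ∧
    (∀ k : ℕ, 2 ≤ k → Finite (B 2 (5 * k)) → InL.{u} 5) ∧
    (∀ n : ℕ, n = 10 ∨ n = 15 ∨ n = 20 → (InL.{u} n ↔ Finite (B 2 n))) ∧
    ∀ n : ℕ, 1 ≤ n → n ≠ 5 → Admissible n →
      (n.primeFactors.card ≤ 2 ∨ Group.IsSolvable (B 2 n)) →
      (InL.{u} n ↔ PrimePowersInL.{u} n ∧ Finite (B 2 n)) := by
  refine ⟨fun m a b hm hf => Wr.bu_kernel hm hf, fun k hk h => five_of_two hk h, ?_,
    fun n hn h5 hA hs => main hn h5 hA hs⟩
  have key : ∀ n : ℕ, 1 ≤ n → n ≠ 5 → Admissible n → n.primeFactors.card ≤ 2 →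
      (∀ p k : ℕ, p.Prime → p ^ k ∣ n → p ^ k ≤ 5) → (InL.{u} n ↔ Finite (B 2 n)) := by
    intro n hn h5 hA hc hp
    rw [main hn h5 hA (Or.inl hc)]
    refine ⟨fun h => h.2, fun h => ⟨fun p k hp' hd hk => ?_, h⟩⟩
    exact absurd (hp p k hp' hd) (by omega)
  have hT := TwoGenerators.result.{u}.1
  -- prime powers dividing small numbers
  have pp : ∀ n : ℕ, n = 10 ∨ n = 15 ∨ n = 20 → ∀ p k : ℕ, p.Prime → p ^ k ∣ n → p ^ k ≤ 5 := by
    intro n hn p k hp hd
    have h1 : p ^ k ≤ n := Nat.le_of_dvd (by omega) hd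
    by_contra hcon
    push Not at hcon
    have h2 : p ^ k ∈ n.divisors := Nat.mem_divisors.2 ⟨hd, by omega⟩
    have h3 : IsPrimePow (p ^ k) := by
      rcases Nat.eq_zero_or_pos k with rfl | hk
      · simp at hcon
      · exact hp.isPrimePow.pow (by omega)
    have h4 : ∀ d ∈ n.divisors, 5 < d → ¬ IsPrimePow d := by
      rintro d hd1 hd2 hd3
      have hcase : d = 6 ∨ d = 10 ∨ d = 15 ∨ d = 20 := by
        rcases hn with rfl | rfl | rfl
        · have : Nat.divisors 10 = {1, 2, 5, 10} := by decide
          rw [this] at hd1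
          simp only [Finset.mem_insert, Finset.mem_singleton] at hd1
          omega
        · have : Nat.divisors 15 = {1, 3, 5, 15} := by decide
          rw [this] at hd1
          simp only [Finset.mem_insert, Finset.mem_singleton] at hd1
          omega
        · have : Nat.divisors 20 = {1, 2, 4, 5, 10, 20} := by decide
          rw [this] at hd1
          simp only [Finset.mem_insert, Finset.mem_singleton] at hd1
          omega
      rw [isPrimePow_nat_iff] at hd3
      obtain ⟨q, l, hq, hl, hql⟩ := hd3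
      have hdv : ∀ r : ℕ, r.Prime → r ∣ d → r = q := by
        intro r hr hrd
        rw [← hql] at hrd
        exact (Nat.prime_dvd_prime_iff_eq hr hq).1 (hr.dvd_of_dvd_pow hrd)
      rcases hcase with rfl | rfl | rfl | rfl
      · have := hdv 2 (by norm_num) (by norm_num); have := hdv 3 (by norm_num) (by norm_num); omega
      · have := hdv 2 (by norm_num) (by norm_num); have := hdv 5 (by norm_num) (by norm_num); omega
      · have := hdv 3 (by norm_num) (by norm_num); have := hdv 5 (by norm_num) (by norm_num); omega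
      · have := hdv 2 (by norm_num) (by norm_num); have := hdv 5 (by norm_num) (by norm_num); omega
    exact h4 _ h2 hcon h3
  have h10 : Nat.primeFactors 10 = {2, 5} := by
    rw [show (10 : ℕ) = 2 * 5 by norm_num, Nat.primeFactors_mul (by norm_num) (by norm_num),
      Nat.prime_two.primeFactors, Nat.prime_five.primeFactors]
    rfl
  have h15 : Nat.primeFactors 15 = {3, 5} := by
    rw [show (15 : ℕ) = 3 * 5 by norm_num, Nat.primeFactors_mul (by norm_num) (by norm_num),
      Nat.prime_three.primeFactors, Nat.prime_five.primeFactors]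
    rfl
  have h20 : Nat.primeFactors 20 = {2, 5} := by
    rw [show (20 : ℕ) = 2 * (2 * 5) by norm_num, Nat.primeFactors_mul (by norm_num) (by norm_num),
      Nat.primeFactors_mul (by norm_num) (by norm_num),
      Nat.prime_two.primeFactors, Nat.prime_five.primeFactors]
    rfl
  rintro n (rfl | rfl | rfl)
  · have hA : Admissible 10 := (hT 5 (by decide) (by norm_num)).2.1
    exact key 10 (by norm_num) (by norm_num) hA (by rw [h10]; decide) (pp 10 (by norm_num))
  · have hA : Admissible 15 := (hT 15 (by decide) (by norm_num)).1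
    exact key 15 (by norm_num) (by norm_num) hA (by rw [h15]; decide) (pp 15 (by norm_num))
  · have hA : Admissible 20 := (hT 5 (by decide) (by norm_num)).2.2 (by norm_num) (by norm_num)
      (by norm_num) 2
    exact key 20 (by norm_num) (by norm_num) hA (by rw [h20]; decide) (pp 20 (by norm_num))

end Pool.Agent.Results.MP_544bd1_al.TwoGeneratorsFive
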